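import Pool.Agent.L0h32.ES.World
import Pool.Agent.Y220.CO.Tail

/-!
# A machine that tells the two oracles apart gives a small circuit of small depth for the parity
-/

set_option autoImplicit false

namespace Pool.Agent.L0h32.ES

open Pool.Agent.L0h34.OM Finset

/-- The parity of an assignment. -/
def parX {V : ℕ} (X : Fin V → Bool) : Bool :=
  parUpto (fun i => if h : i < V then X ⟨i, h⟩ else false) V

theorem parX_flip {V : ℕ} (X : Fin V → Bool) (i : Fin V) :
    parX (Function.update X i (!(X i))) = !parX X := by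
  unfold parX
  refine parUpto_flip i.2 (fun j hj hji => ?_) ?_
  · have h1 : (⟨j, hj⟩ : Fin V) ≠ i := fun h => hji (by rw [← h])
    simp [hj, Function.update_of_ne h1]
  · simp

open Classical in
/-- The special values that are given by an assignment. -/
noncomputable def sp (N : ℕ) (X : Fin (2 ^ N) → Bool) : Oracle := fun z =>
  decide (∃ i : Fin (2 ^ N), z = addr N [] i ∧ X i = true)

theorem sp_addr {N : ℕ} (X : Fin (2 ^ N) → Bool) (i : Fin (2 ^ N)) :
    sp N X (addr N [] i) = X i := by
  have h : (∃ j : Fin (2 ^ N), addr N [] i = addr N [] j ∧ X j = true) ↔ X i = true := by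
    constructor
    · rintro ⟨j, h1, h2⟩
      have h3 : (i : ℕ) = j := zs_inj i.2 j.2 (addr_inj h1).2.1
      rwa [Fin.ext h3]
    · intro h
      exact ⟨i, rfl, h⟩
  unfold sp
  rw [Bool.eq_iff_iff, decide_eq_true_iff]
  exact h

theorem par_sp {N : ℕ} {G : Oracle} (X : Fin (2 ^ N) → Bool)
    (h : ∀ i : Fin (2 ^ N), G (addr N [] i) = X i) : par G N [] = parX X := by
  unfold par parX
  refine parUpto_congr fun i hi => ?_
  rw [dif_pos hi, ← h ⟨i, hi⟩]

/-! ### The number of questions with short codes -/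

/-- The questions with codes of length at most `L`. -/
abbrev D (L : ℕ) : Type := {p : Qn // (qc p).length ≤ L}

/-- The essential part of a code. -/
def hd (p : Qn) : List Bool := List.replicate p.1 true ++ false :: p.2.1 :: p.2.2

theorem hd_inj : Function.Injective hd := by
  rintro ⟨k, b, x⟩ ⟨k', b', x'⟩ h
  obtain ⟨h1, h2⟩ := replicate_append_inj h
  simp only [List.cons.injEq] at h2
  exact Prod.ext h1 (Prod.ext h2.1 h2.2)

theorem length_hd_le {L : ℕ} {p : Qn} (h : (qc p).length ≤ L) : (hd p).length ≤ Nat.log 2 L := by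
  have h1 : qr p ^ 2 ≤ L := (qr_sq_lt p).le.trans h
  have h2 : 2 ^ (hd p).length ≤ qr p ^ 2 := by
    have e : qr p ^ 2 = 2 ^ (((p.1 + 1) * (p.2.2.length + 1) + 1) * 2) := by
      unfold qr rch
      rw [← pow_mul]
    rw [e]
    apply Nat.pow_le_pow_right (by norm_num)
    unfold hd
    simp only [List.length_append, List.length_replicate, List.length_cons]
    nlinarith [Nat.zero_le (p.1 * p.2.2.length)]
  exact Nat.le_log_of_pow_le (by norm_num) (h2.trans h1)

/-- The map which shows that there are few questions. -/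
def dmap (L : ℕ) (p : D L) : Fin (Nat.log 2 L) → Option Bool := fun i => (hd p.1)[(i : ℕ)]?

theorem dmap_inj (L : ℕ) : Function.Injective (dmap L) := by
  intro p q h
  apply Subtype.ext
  apply hd_inj
  apply List.ext_getElem?
  intro i
  by_cases hi : i < Nat.log 2 L
  · exact congrFun h ⟨i, hi⟩
  · rw [List.getElem?_eq_none, List.getElem?_eq_none]
    · exact (length_hd_le q.2).trans (by omega)
    · exact (length_hd_le p.2).trans (by omega)

instance (L : ℕ) : Finite (D L) := Finite.of_injective _ (dmap_inj L)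

theorem card_D {L : ℕ} (hL : 1 ≤ L) : Nat.card (D L) ≤ L ^ 2 := by
  have h1 : Nat.card (D L) ≤ Nat.card (Fin (Nat.log 2 L) → Option Bool) :=
    Nat.card_le_card_of_injective _ (dmap_inj L)
  have h2 : Nat.card (Fin (Nat.log 2 L) → Option Bool) = 3 ^ (Nat.log 2 L) := by
    rw [Nat.card_eq_fintype_card, Fintype.card_pi]
    simp
  have h3 : 2 ^ (Nat.log 2 L) ≤ L := Nat.pow_log_le_self 2 (by omega)
  calc Nat.card (D L) ≤ 3 ^ (Nat.log 2 L) := by rw [← h2]; exact h1
    _ ≤ 4 ^ (Nat.log 2 L) := Nat.pow_le_pow_left (by norm_num) _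
    _ = (2 ^ (Nat.log 2 L)) ^ 2 := by rw [← pow_mul, mul_comm, pow_mul]; norm_num
    _ ≤ L ^ 2 := Nat.pow_le_pow_left h3 2

/-! ### Consistent answers -/

section
variable {N L T J : ℕ} {B : Oracle} {u : Prog} {x0 : List Bool}

/-- The answers as a function of all questions. -/
def ex (θ : D L → Bool) : Qn → Bool := fun p => if h : (qc p).length ≤ L then θ ⟨p, h⟩ else false

theorem ex_apply (θ : D L → Bool) (p : D L) : ex θ p.1 = θ p := by
  unfold ex
  rw [dif_pos p.2]

/-- The oracle that is given by answers and special values. -/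
noncomputable def OO (B : Oracle) (θ : D L → Bool) (X : Fin (2 ^ N) → Bool) : Oracle :=
  O N B (ex θ) (sp N X)

/-- The answers on the side `b` to the questions with codes shorter than `R` are right. -/
def Con (B : Oracle) (b : Bool) (θ : D L → Bool) (X : Fin (2 ^ N) → Bool) (R : ℕ) : Prop :=
  ∀ p : D L, p.1.2.1 = b → 2 * N + 1 ≤ qr p.1 → (qc p.1).length < R →
    θ p = acc (OO B θ X) p.1.1 p.1.2.2

/-- The answers differ only on the side `b` in the block of the lengths between `R` and `R ^ 2`. -/
def Agr (b : Bool) (R : ℕ) (θ θ' : D L → Bool) : Prop :=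
  ∀ p : D L, ¬ (p.1.2.1 = b ∧ R ≤ (qc p.1).length) → θ' p = θ p

/-- The thresholds. -/
def Rj (N j : ℕ) : ℕ := (2 * N + 1) ^ 2 ^ j

theorem Rj_succ (N j : ℕ) : Rj N (j + 1) = Rj N j ^ 2 := by
  unfold Rj
  rw [← pow_mul, pow_succ]

theorem init2_length (x w : List Bool) (r : ℕ) : (init2 x w r).length ≤ x.length + w.length := by
  unfold init2
  split_ifs
  · omega
  · omega
  · simp

theorem NAccepts_congr {A A' : Oracle} (h : ∀ z : List Bool, z.length ≤ x0.length + 2 * T →
    A z = A' z) (h1 : NAccepts A u T x0) : NAccepts A' u T x0 := by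
  obtain ⟨w, hw, s, t, τ, h2, h3, h4⟩ := h1
  have h5 := (h2.length_le (m := x0.length + T)
    (fun r => (init2_length x0 w r).trans (by omega))).2
  exact ⟨w, hw, x0.length + T + t, t, τ, h5.local_length fun q hq => (h q (by omega)).symm, h3, h4⟩

/-- The function computed from the last `r` rounds. -/
def F (N L T J : ℕ) (B : Oracle) (u : Prog) (x0 : List Bool) :
    ℕ → (D L → Bool) → (Fin (2 ^ N) → Bool) → Prop
  | 0, θ, X => (∃ X1 : Fin (2 ^ N) → Bool, parX X1 = true ∧ Con B true θ X1 (L + 1)) ∧
      ((∃ X0 : Fin (2 ^ N) → Bool, parX X0 = false ∧ Con B false θ X0 (L + 1)) →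
        NAccepts (OO B θ X) u T x0)
  | r + 1, θ, X => ∃ θ' : D L → Bool, Agr true (Rj N (J - (r + 1))) θ θ' ∧
      ∀ θ'' : D L → Bool, Agr false (Rj N (J - (r + 1))) θ' θ'' → F N L T J B u x0 r θ'' X

/-- The pair of special functions. -/
noncomputable def gg (N : ℕ) (XX : Bool → Fin (2 ^ N) → Bool) : Bool → Oracle := fun b => sp N (XX b)

theorem agree {XX : Bool → Fin (2 ^ N) → Bool} {θ : D L → Bool}
    (h : ∀ b, Con B b θ (XX b) (L + 1)) (m : ℕ) : ∀ (b : Bool) (z : List Bool), z.length = m →
      z.length ≤ L → W N B (gg N XX) b z = OO B θ (XX b) z := by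
  induction m using Nat.strong_induction_on with
  | _ m ih =>
    intro b z hz hzL
    unfold W OO
    apply O_congr
    · intro p hp hq
      have hpL : (qc p).length ≤ L := by rw [← hp]; exact hzL
      have h1 := h p.2.1 ⟨p, hpL⟩ rfl hq (Nat.lt_succ_of_le hpL)
      have h0 : (qc p).length = m := by rw [← hp]; exact hz
      rw [tru_eq]
      unfold ex
      rw [dif_pos hpL, h1]
      apply acc_congr
      intro q hq2
      have h3 := qr_lt p
      have h4 : q.length ≤ qr p := hq2
      exact ih q.length (by omega) _ q rfl (by omega)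
    · intro _ _
      rfl

theorem acc_short {θ θ' : D L → Bool} {X : Fin (2 ^ N) → Bool} {R : ℕ} {p : D L}
    (hlen : (qc p.1).length < R ^ 2) (h : ∀ q : D L, (qc q.1).length < R → θ q = θ' q) :
    acc (OO B θ X) p.1.1 p.1.2.2 = acc (OO B θ' X) p.1.1 p.1.2.2 := by
  apply acc_congr
  intro q hq
  unfold OO
  have h1 := qr_sq_lt p.1
  have h2 : qr p.1 < R := by
    by_contra hcon
    push Not at hcon
    have := Nat.pow_le_pow_left hcon 2
    omega
  have h3 : q.length ≤ qr p.1 := hq
  apply O_congr
  · intro p' hp' _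
    have h4 : (qc p').length < R := by rw [← hp']; omega
    unfold ex
    split_ifs with h5
    · exact h ⟨p', h5⟩ h4
    · rfl
  · intro _ _
    rfl

open Classical in
theorem main_ind (hL : L = x0.length + 2 * T) (hR : L < Rj N J)
    (H : ∀ XX : Bool → Fin (2 ^ N) → Bool, parX (XX false) = false → parX (XX true) = true →
      ¬ NAccepts (W N B (gg N XX) false) u T x0 ∧ NAccepts (W N B (gg N XX) true) u T x0)
    (r : ℕ) : r ≤ J → ∀ (θ : D L → Bool) (X : Fin (2 ^ N) → Bool),
      (parX X = true → Con B true θ X (Rj N (J - r)) → F N L T J B u x0 r θ X) ∧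
      (parX X = false → Con B false θ X (Rj N (J - r)) → ¬ F N L T J B u x0 r θ X) := by
  induction r with
  | zero =>
    intro _ θ X
    have hcon : ∀ b, Con B b θ X (Rj N (J - 0)) → Con B b θ X (L + 1) := by
      intro b h p hp1 hp2 _
      exact h p hp1 hp2 (lt_of_le_of_lt p.2 (by simpa using hR))
    have key : ∀ X0 X1 : Fin (2 ^ N) → Bool, parX X0 = false → parX X1 = true →
        Con B false θ X0 (L + 1) → Con B true θ X1 (L + 1) →
        ¬ NAccepts (OO B θ X0) u T x0 ∧ NAccepts (OO B θ X1) u T x0 := by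
      intro X0 X1 h0 h1 c0 c1
      obtain ⟨XX, hXX⟩ : ∃ XX : Bool → Fin (2 ^ N) → Bool, XX = fun b => if b then X1 else X0 :=
        ⟨_, rfl⟩
      have e0 : XX false = X0 := by rw [hXX]; rfl
      have e1 : XX true = X1 := by rw [hXX]; rfl
      have hc : ∀ b, Con B b θ (XX b) (L + 1) := by
        intro b
        cases b
        · rw [e0]; exact c0
        · rw [e1]; exact c1
      obtain ⟨H0, H1⟩ := H XX (by rw [e0]; exact h0) (by rw [e1]; exact h1)
      constructor
      · intro hN
        apply H0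
        refine NAccepts_congr (fun z hz => ?_) hN
        rw [agree hc z.length false z rfl (by omega), e0]
      · refine NAccepts_congr (fun z hz => ?_) H1
        rw [agree hc z.length true z rfl (by omega), e1]
    constructor
    · intro h1 h2
      refine ⟨⟨X, h1, hcon _ h2⟩, ?_⟩
      rintro ⟨X0, h3, h4⟩
      exact (key X0 X h3 h1 h4 (hcon _ h2)).2
    · intro h1 h2 hF
      obtain ⟨⟨X1, h3, h4⟩, h5⟩ := hF
      exact (key X X1 h1 h3 (hcon _ h2) h4).1 (h5 ⟨X, h1, hcon _ h2⟩)
  | succ r ih =>
    intro hr θ X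
    obtain ⟨R, hRdef⟩ : ∃ R, R = Rj N (J - (r + 1)) := ⟨_, rfl⟩
    have hR2 : Rj N (J - r) = R ^ 2 := by
      rw [hRdef, ← Rj_succ]
      congr 1
      omega
    have ih' := ih (by omega)
    rw [hR2] at ih'
    constructor
    · intro h1 h2
      rw [← hRdef] at h2
      obtain ⟨θ', hθdef⟩ : ∃ θ' : D L → Bool, θ' = fun p =>
        if p.1.2.1 = true ∧ R ≤ (qc p.1).length then acc (OO B θ X) p.1.1 p.1.2.2
        else θ p := ⟨_, rfl⟩
      have hagr : Agr true R θ θ' := by
        intro p hp
        rw [hθdef]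
        exact if_neg hp
      refine ⟨θ', by rw [← hRdef]; exact hagr, ?_⟩
      · intro θ'' hθ''
        rw [← hRdef] at hθ''
        refine (ih' θ'' X).1 h1 ?_
        have hshort : ∀ q : D L, (qc q.1).length < R → θ q = θ'' q := by
          intro q hq
          rw [hθ'' q (fun h => by omega), hagr q (fun h => by omega)]
        intro p hp1 hp2 hp3
        rw [← acc_short hp3 hshort]
        by_cases hp4 : (qc p.1).length < R
        · rw [← hshort p hp4]
          exact h2 p hp1 hp2 hp4
        · rw [hθ'' p (fun h => by rw [hp1] at h; simp at h), hθdef]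
          exact if_pos ⟨hp1, by omega⟩
    · intro h1 h2 hF
      rw [← hRdef] at h2
      obtain ⟨θ', hθ', hF'⟩ := hF
      rw [← hRdef] at hθ' hF'
      obtain ⟨θ'', hθdef⟩ : ∃ θ'' : D L → Bool, θ'' = fun p =>
        if p.1.2.1 = false ∧ R ≤ (qc p.1).length then acc (OO B θ X) p.1.1 p.1.2.2
        else θ' p := ⟨_, rfl⟩
      have hagr : Agr false R θ' θ'' := by
        intro p hp
        rw [hθdef]
        exact if_neg hp
      refine (ih' θ'' X).2 h1 ?_ (hF' θ'' hagr)
      have hshort : ∀ q : D L, (qc q.1).length < R → θ q = θ'' q := by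
        intro q hq
        rw [hagr q (fun h => by omega), hθ' q (fun h => by omega)]
      intro p hp1 hp2 hp3
      rw [← acc_short hp3 hshort]
      by_cases hp4 : (qc p.1).length < R
      · rw [← hshort p hp4]
        exact h2 p hp1 hp2 hp4
      · rw [hθdef]
        exact if_pos ⟨hp1, by omega⟩

end

end Pool.Agent.L0h32.ES
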