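import Pool.Agent.L0h34.OM.Basic

/-!
# Exponential time and space with linear exponents, relative to an oracle

The programs (`Prog`), their runs (`Run`), oracles (`Oracle`) and the initial contents of the registers
(`init`) are those of `Pool.Agent.L0h34.OM.Basic`.
-/

set_option autoImplicit false

namespace Pool.Agent.L0h32.ES

open Pool.Agent.L0h34.OM

/-- `L` is decided relative to `A` in time `2 ^ (c (n + 1))` for some constant `c`, where `n` is the
length of the input; the input is accepted if register `0` is not empty at the end. -/
def E (A : Oracle) (L : Set (List Bool)) : Prop :=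
  ∃ (u : Prog) (c : ℕ), ∀ x : List Bool, ∃ (s t : ℕ) (τ : Store),
    Run A s u (init x) t τ ∧ t ≤ 2 ^ (c * (x.length + 1)) ∧ (x ∈ L ↔ τ 0 ≠ [])

/-- `L` is decided relative to `A` in space `2 ^ (c (n + 1))` for some constant `c`: no string in a
register or given to the oracle is longer. -/
def ESPACE (A : Oracle) (L : Set (List Bool)) : Prop :=
  ∃ (u : Prog) (c : ℕ), ∀ x : List Bool, ∃ (t : ℕ) (τ : Store),
    Run A (2 ^ (c * (x.length + 1))) u (init x) t τ ∧ (x ∈ L ↔ τ 0 ≠ [])

/-- `L` is in `E` with one bit of advice: membership of `x` is decided in exponential time from `x` and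
one bit which depends on the length of `x` only. -/
def EOneBit (A : Oracle) (L : Set (List Bool)) : Prop :=
  ∃ (a : ℕ → Bool) (K : Set (List Bool)), E A K ∧ ∀ x : List Bool, x ∈ L ↔ a x.length :: x ∈ K

/-- The input is in register `0`, a witness in register `1`, and the other registers are empty. -/
def init2 (x w : List Bool) : Store := fun r => if r = 0 then x else if r = 1 then w else []

/-- The nondeterministic program `u` accepts `x` in time `T`: for some witness `w` of length at most
`T` it stops after at most `T` steps, and register `0` is not empty at the end. -/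
def NAccepts (A : Oracle) (u : Prog) (T : ℕ) (x : List Bool) : Prop :=
  ∃ w : List Bool, w.length ≤ T ∧ ∃ (s t : ℕ) (τ : Store),
    Run A s u (init2 x w) t τ ∧ t ≤ T ∧ τ 0 ≠ []

end Pool.Agent.L0h32.ES
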