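import Pool.Agent.L0h32.ES.Net

/-!
# Every program with a short running time is fooled
-/

set_option autoImplicit false

namespace Pool.Agent.L0h32.ES

open Pool.Agent.L0h34.OM Finset

theorem sq_le {n : ℕ} (hn : 20 ≤ n) : 16 * n ^ 2 ≤ 2 ^ n := by
  induction n, hn using Nat.le_induction with
  | base => norm_num
  | succ n hn ih =>
    rw [pow_succ 2 n]
    nlinarith

/-- The running time. -/
def tm (n : ℕ) : ℕ := 2 ^ (2 ^ n / (8 * n))

theorem fool {n : ℕ} (hn : 20 ≤ n) (B : Oracle) (u : Prog) :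
    ∃ (g : Bool → Oracle) (κ : Bool),
      ¬ (par (W (2 ^ n) B g κ) (2 ^ n) [] = true ↔
        NAccepts (W (2 ^ n) B g κ) u (tm n) (List.replicate n true)) := by
  obtain ⟨q, hq⟩ : ∃ q, q = 2 ^ n / (8 * n) := ⟨_, rfl⟩
  obtain ⟨T, hT⟩ : ∃ T, T = 2 ^ q := ⟨_, rfl⟩
  have htm : tm n = T := by unfold tm; rw [hT, hq]
  rw [htm]
  have h16 := sq_le hn
  have hq1 : q * (8 * n) ≤ 2 ^ n := by rw [hq]; exact Nat.div_mul_le_self _ _
  have hnq : n ≤ q := by
    rw [hq, Nat.le_div_iff_mul_le (by omega)]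
    nlinarith
  have hNT : 2 ^ n ≤ T := by rw [hT]; exact Nat.pow_le_pow_right (by norm_num) hnq
  have hnN : n < 2 ^ n := Nat.lt_two_pow_self
  have hlen : (List.replicate n true).length = n := by simp
  obtain ⟨N, hN⟩ : ∃ N, N = 2 ^ n := ⟨_, rfl⟩
  rw [← hN] at h16 hq1 hNT hnN ⊢
  have hTN : T ≤ 2 ^ N := by
    rw [hT]
    apply Nat.pow_le_pow_right (by norm_num)
    nlinarith
  apply fool_one (L := n + 2 * T) (J := n) (ℓ := 2 ^ (2 * q + 4)) B u (List.replicate n true)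
    (by omega) (by rw [hlen]) (by omega)
  · -- the number of rounds
    have h1 : 2 ^ (n + 1) ≤ 2 * N + 1 := by rw [hN, pow_succ]; omega
    have h2 : Rj N n = (2 * N + 1) ^ N := by unfold Rj; rw [← hN]
    rw [h2]
    calc n + 2 * T < 2 ^ N + 2 * 2 ^ N := by
          have : N < 2 ^ N := Nat.lt_two_pow_self
          omega
      _ = 3 * 2 ^ N := by ring
      _ ≤ 2 ^ N * 2 ^ N := by
          apply Nat.mul_le_mul_right
          have : 2 ^ 2 ≤ 2 ^ N := Nat.pow_le_pow_right (by norm_num) (by omega)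
          omega
      _ = 4 ^ N := by rw [← mul_pow]; norm_num
      _ ≤ (2 * N + 1) ^ N := Nat.pow_le_pow_left (by omega) _
  · -- the size
    have e : 2 ^ (2 * q + 4) = 16 * (T * T) := by rw [hT]; ring
    have h1 : (2 * 2 ^ N + 1) ^ T ≤ 2 ^ ((N + 2) * T) := by
      rw [pow_mul]
      apply Nat.pow_le_pow_left
      have : 1 ≤ 2 ^ N := Nat.one_le_two_pow
      rw [pow_add]
      omega
    have h2 : 2 * n + 1 ≤ 2 ^ (n + 1) := by rw [pow_succ, ← hN]; omega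
    have hT1 : 20 ≤ T := by omega
    have h3 : (2 * n + 1) * 2 ^ ((n + 2 * T) ^ 2) ≤ 2 ^ (n + 1 + (n + 2 * T) ^ 2) := by
      rw [pow_add 2 (n + 1)]
      exact Nat.mul_le_mul_right _ h2
    have e1 : N ≤ 15 * (T * T) := by nlinarith
    have e2 : (N + 2) * T ≤ 15 * (T * T) := by nlinarith
    have e3 : n + 1 + (n + 2 * T) ^ 2 ≤ 15 * (T * T) := by nlinarith
    have f1 : 2 ^ N ≤ 2 ^ (15 * (T * T)) := Nat.pow_le_pow_right (by norm_num) e1
    have f2 : 2 ^ ((N + 2) * T) ≤ 2 ^ (15 * (T * T)) := Nat.pow_le_pow_right (by norm_num) e2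
    have f3 : 2 ^ (n + 1 + (n + 2 * T) ^ 2) ≤ 2 ^ (15 * (T * T)) :=
      Nat.pow_le_pow_right (by norm_num) e3
    rw [e]
    have e4 : 15 * (T * T) + 2 ≤ 16 * (T * T) := by nlinarith
    calc 2 ^ N + (2 * 2 ^ N + 1) ^ T + (2 * n + 1) * 2 ^ ((n + 2 * T) ^ 2)
        ≤ 2 ^ (15 * (T * T)) + 2 ^ (15 * (T * T)) + 2 ^ (15 * (T * T)) := by
          exact Nat.add_le_add (Nat.add_le_add f1 (h1.trans f2)) (h3.trans f3)
      _ ≤ 4 * 2 ^ (15 * (T * T)) := by omega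
      _ = 2 ^ (15 * (T * T) + 2) := by rw [pow_add]; ring
      _ ≤ _ := Nat.pow_le_pow_right (by norm_num) e4
  · -- the depth
    have h1 : 2 * n + 3 ≤ 2 ^ (2 * q + 4) := by
      have : 2 * q + 4 < 2 ^ (2 * q + 4) := Nat.lt_two_pow_self
      omega
    have h2 : (2 * n + 2) * 1 + 2 ^ (2 * q + 4) + 1 ≤ 2 ^ (2 * q + 5) := by
      rw [pow_succ 2 (2 * q + 4)]
      omega
    calc 2 * (2 ^ (2 * n + 2 + 9) * (1 * 2 ^ (2 * q + 4))) ^ (2 * n + 2) *
          ((2 * n + 2) * 1 + 2 ^ (2 * q + 4) + 1)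
        ≤ 2 * (2 ^ (2 * n + 2 + 9) * (1 * 2 ^ (2 * q + 4))) ^ (2 * n + 2) * 2 ^ (2 * q + 5) :=
          Nat.mul_le_mul_left _ h2
      _ = 2 ^ (1 + (2 * n + 2 + 9 + (2 * q + 4)) * (2 * n + 2) + (2 * q + 5)) := by
          rw [one_mul, ← pow_add, ← pow_mul, ← pow_succ', ← pow_add]
          congr 1
          ring
      _ ≤ 2 ^ N := by
          apply Nat.pow_le_pow_right (by norm_num)
          nlinarith

end Pool.Agent.L0h32.ES
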