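import Pool.Agent.L0h32.ES.Stage
import Pool.Agent.L0h34.OM.Reduce

/-!
# The programs
-/

set_option autoImplicit false

namespace Pool.Agent.L0h32.ES

open Pool.Agent.L0h34.OM

/-- The code of the question about `y`, which consists of the side and the input. -/
def code (k : ℕ) (y : List Bool) : List Bool :=
  false :: (List.replicate k true ++ false :: (y ++ true ::
    List.replicate (2 ^ (2 + 2 * (k + 1) * y.length)) false))

theorem code_cons (k : ℕ) (b : Bool) (x : List Bool) : code k (b :: x) = cd k b x := by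
  unfold code cd
  have e : 2 ^ (2 + 2 * (k + 1) * (b :: x).length) = rch k x.length ^ 2 := by
    unfold rch
    rw [← pow_mul, List.length_cons]
    congr 1
    ring
  rw [e, List.cons_append]

/-- The string of `n` zeros. -/
abbrev zeros (n : ℕ) : List Bool := List.replicate n false

/-- Double the register `4`. -/
def dbl : Prog := .app 4 4 3

section

variable {G : Oracle} {y a c e : List Bool}

theorem go_dbl (m : ℕ) : Go G dbl (st [y, a, c, [], zeros m, e]) (4 * m + 2)
    (st [y, a, c, [], zeros (m * 2), e]) := by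
  have h : Go G (.app 4 4 3) (st [y, a, c, [], zeros m, e]) (4 * (zeros m).length + 2)
      (st [y, a, c, [], zeros m ++ zeros m, e]) := Go.app (by simp) (by simp) (by simp)
  rw [List.length_replicate] at h
  have e1 : zeros m ++ zeros m = zeros (m * 2) := by
    rw [List.replicate_append_replicate]
    congr 1
    ring
  rw [e1] at h
  exact h

theorem go_dbls (j m : ℕ) : Go G (iter dbl j) (st [y, a, c, [], zeros m, e])
    (4 * (m * 2 ^ j) + 2 * j + 1) (st [y, a, c, [], zeros (m * 2 ^ j), e]) := by
  induction j with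
  | zero =>
    rw [pow_zero, Nat.mul_one]
    exact (Go.nop (G := G) (σ := st [y, a, c, [], zeros m, e])).mono (by omega)
  | succ j ih =>
    have h := ih.seq (go_dbl (m * 2 ^ j))
    have e1 : m * 2 ^ j * 2 = m * 2 ^ (j + 1) := by ring
    rw [e1] at h
    exact h.mono (by rw [← e1]; omega)

theorem go_each (j : ℕ) (l : List Bool) (m : ℕ) :
    Go G (.each 2 (iter dbl j) (iter dbl j)) (st [y, a, l, [], zeros m, e])
      (l.length * (4 * (m * 2 ^ (j * l.length)) + 2 * j + 3) + 1)
      (st [y, a, [], [], zeros (m * 2 ^ (j * l.length)), e]) := by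
  induction l generalizing m with
  | nil =>
    simp only [List.length_nil, Nat.mul_zero, pow_zero, Nat.mul_one, Nat.zero_mul, Nat.zero_add]
    exact Go.each_nil rfl
  | cons b l ih =>
    have h1 := go_dbls (G := G) (y := y) (a := a) (c := l) (e := e) j m
    have h2 := ih (m * 2 ^ j)
    have e1 : m * 2 ^ j * 2 ^ (j * l.length) = m * 2 ^ (j * (b :: l).length) := by
      rw [List.length_cons, mul_add, pow_add]; ring
    rw [e1] at h2
    refine (Go.each_cons b (by simp) rfl h1 h2).mono ?_
    have h3 : m * 2 ^ j ≤ m * 2 ^ (j * (b :: l).length) := by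
      apply Nat.mul_le_mul_left
      apply Nat.pow_le_pow_right (by norm_num)
      rw [List.length_cons]
      nlinarith
    obtain ⟨M, hM⟩ : ∃ M, m * 2 ^ (j * (b :: l).length) = M := ⟨_, rfl⟩
    rw [hM] at h3 ⊢
    rw [List.length_cons]
    nlinarith

theorem go_ones1 (k : ℕ) (z d : List Bool) :
    Go G (iter (.put 1 true) k) (st [y, z, c, [], d, e]) (k + 1)
      (st [y, z ++ ones k, c, [], d, e]) := by
  induction k with
  | zero =>
    have : z ++ ones 0 = z := by simp [ones]
    rw [this]
    exact Go.nop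
  | succ k ih =>
    have h1 : Go G (.put 1 true) (st [y, z ++ ones k, c, [], d, e]) 1
      (st [y, z ++ ones k ++ ones 1, c, [], d, e]) := Go.put true (by simp)
    rw [List.append_assoc, ones_add] at h1
    exact ih.seq h1

end

/-- Ask the oracle about the code of the input. -/
def askProg (k : ℕ) : Prog :=
  .seq (.copy 0 2) (.seq (.put 1 false) (.seq (iter (.put 1 true) k) (.seq (.put 1 false)
    (.seq (.app 0 1 3) (.seq (.put 1 true) (.seq (.put 4 false) (.seq (iter dbl 2)
      (.seq (.each 2 (iter dbl (2 * (k + 1))) (iter dbl (2 * (k + 1)))) (.seq (.app 4 1 3)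
        (.seq (.ask 1 5) (.seq (.clear 0) (.take 5 .nop .nop (.put 0 true)))))))))))))

theorem init_six (x : List Bool) : init x = st [x, [], [], [], [], []] := by
  funext r
  match r with
  | 0 => rfl
  | 1 => rfl
  | 2 => rfl
  | 3 => rfl
  | 4 => rfl
  | 5 => rfl
  | r + 6 => simp [init, st]

theorem go_askProg (G : Oracle) (k : ℕ) (y : List Bool) : ∃ τ : Store,
    Go G (askProg k) (init y) (2 ^ ((3 * k + 12) * (y.length + 1))) τ ∧
      (G (code k y) = true ↔ τ 0 ≠ []) := by
  obtain ⟨m, hm⟩ : ∃ m, m = 2 ^ (2 + 2 * (k + 1) * y.length) := ⟨_, rfl⟩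
  have h1 : Go G (.copy 0 2) (st [y, [], [], [], [], []]) (y.length + 1)
      (st [y, [], y, [], [], []]) := Go.copy (by simp)
  have h2 : Go G (.put 1 false) (st [y, [], y, [], [], []]) 1
      (st [y, [false], y, [], [], []]) := Go.put false (by simp)
  have h3 := go_ones1 (G := G) (y := y) (c := y) (e := []) k [false] []
  have h4 : Go G (.put 1 false) (st [y, [false] ++ ones k, y, [], [], []]) 1
      (st [y, [false] ++ ones k ++ [false], y, [], [], []]) := Go.put false (by simp)
  have h5 : Go G (.app 0 1 3) (st [y, [false] ++ ones k ++ [false], y, [], [], []])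
      (4 * y.length + 2) (st [y, [false] ++ ones k ++ [false] ++ y, y, [], [], []]) :=
    Go.app (by simp) (by simp) (by simp)
  have h6 : Go G (.put 1 true) (st [y, [false] ++ ones k ++ [false] ++ y, y, [], [], []]) 1
      (st [y, [false] ++ ones k ++ [false] ++ y ++ [true], y, [], [], []]) :=
    Go.put true (by simp)
  obtain ⟨z, hz⟩ : ∃ z, [false] ++ ones k ++ [false] ++ y ++ [true] = z := ⟨_, rfl⟩
  rw [hz] at h6
  have h7 : Go G (.put 4 false) (st [y, z, y, [], [], []]) 1
      (st [y, z, y, [], zeros 1, []]) := Go.put false (by simp)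
  have h8 := go_dbls (G := G) (y := y) (a := z) (c := y) (e := []) 2 1
  have h9 := go_each (G := G) (y := y) (a := z) (e := []) (2 * (k + 1)) y (1 * 2 ^ 2)
  have e1 : 1 * 2 ^ 2 * 2 ^ (2 * (k + 1) * y.length) = m := by
    rw [hm, pow_add]; ring
  rw [e1] at h9
  have h10 : Go G (.app 4 1 3) (st [y, z, [], [], zeros m, []])
      (4 * (zeros m).length + 2) (st [y, z ++ zeros m, [], [], zeros m, []]) :=
    Go.app (by simp) (by simp) (by simp)
  have hcode : z ++ zeros m = code k y := by
    rw [← hz, code, hm]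
    simp [ones, zeros]
  rw [hcode] at h10
  have h11 : Go G (.ask 1 5) (st [y, code k y, [], [], zeros m, []])
      ((code k y).length + 1) (st [y, code k y, [], [], zeros m, [G (code k y)]]) :=
    ⟨_, Reach.ask' (s := (code k y).length + 1) (by simp) (by simp [st]) (by omega)⟩
  have h12 : Go G (.clear 0) (st [y, code k y, [], [], zeros m, [G (code k y)]])
      (3 * y.length + 1) (st [[], code k y, [], [], zeros m, [G (code k y)]]) :=
    Go.clear (by simp)
  have h13 : ∃ τ : Store, Go G (.take 5 .nop .nop (.put 0 true))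
      (st [[], code k y, [], [], zeros m, [G (code k y)]]) 2 τ ∧
        (G (code k y) = true ↔ τ 0 ≠ []) := by
    cases G (code k y)
    · refine ⟨st [[], code k y, [], [], zeros m, []], ⟨0, Reach.take_false' (x := []) (by simp) rfl
        Reach.nop⟩, ?_⟩
      simp [st]
    · refine ⟨st [[true], code k y, [], [], zeros m, []], ⟨1, Reach.take_true' (x := []) (by simp)
        rfl ?_⟩, ?_⟩
      · exact Reach.put' true (by simp) (by simp [st])
      · simp [st]
  obtain ⟨τ, h14, h15⟩ := h13
  refine ⟨τ, ?_, h15⟩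
  rw [init_six]
  refine (h1.seq (h2.seq (h3.seq (h4.seq (h5.seq (h6.seq (h7.seq (h8.seq (h9.seq (h10.seq
    (h11.seq (h12.seq h14)))))))))))).mono ?_
  have hlen : (code k y).length = k + y.length + 3 + m := by
    rw [hm]; simp [code]; omega
  rw [hlen, List.length_replicate]
  obtain ⟨l, hl⟩ : ∃ l, y.length = l := ⟨_, rfl⟩
  rw [hl] at hm ⊢
  have g1 : k + 1 ≤ 2 ^ k := Nat.lt_two_pow_self
  have g2 : l + 1 ≤ 2 ^ l := Nat.lt_two_pow_self
  have g3 : 1 ≤ m := by rw [hm]; exact Nat.one_le_two_pow
  have g4 : (k + 1) * (l + 1) ≤ 2 ^ k * 2 ^ l := Nat.mul_le_mul g1 g2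
  have g5 : m * ((k + 1) * (l + 1)) ≤ m * (2 ^ k * 2 ^ l) := Nat.mul_le_mul_left _ g4
  have g6 : 2 ^ 6 * (m * (2 ^ k * 2 ^ l)) ≤ 2 ^ ((3 * k + 12) * (l + 1)) := by
    rw [hm, ← pow_add, ← pow_add, ← pow_add]
    apply Nat.pow_le_pow_right (by norm_num)
    nlinarith [Nat.zero_le (k * l)]
  refine le_trans ?_ g6
  refine le_trans ?_ (Nat.mul_le_mul_left _ g5)
  nlinarith [Nat.zero_le (m * (k * l)), Nat.zero_le (m * k), Nat.zero_le (m * l),
    Nat.mul_le_mul g3 (Nat.zero_le (k * l)), Nat.mul_le_mul_right k g3, Nat.mul_le_mul_right l g3,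
    Nat.mul_le_mul_right (k * l) g3]

/-! ### The parity -/

section

variable {G : Oracle} {s : ℕ}

/-- Double the register `1` for each symbol of the register `2`. -/
def dblAll : Prog := .each 2 (.app 1 1 3) (.app 1 1 3)

theorem reach_dblAll (x l : List Bool) (m : ℕ) (hs : m * 2 ^ l.length ≤ s) :
    ∃ T, Reach G s dblAll (st [x, ones m, l, [], [], [], [], [], [], [], [], []]) T
      (st [x, ones (m * 2 ^ l.length), [], [], [], [], [], [], [], [], [], []]) := by
  induction l generalizing m with
  | nil =>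
    simp only [List.length_nil, pow_zero, Nat.mul_one]
    exact ⟨_, Reach.each_nil rfl⟩
  | cons b l ih =>
    have e1 : m * 2 ^ (b :: l).length = m * 2 * 2 ^ l.length := by
      rw [List.length_cons, pow_succ]; ring
    rw [e1] at hs ⊢
    obtain ⟨T, h2⟩ := ih (m * 2) hs
    have h3 : m * 2 ≤ s := le_trans (Nat.le_mul_of_pos_right _ (by positivity)) hs
    have h1 : Reach G s (.app 1 1 3) (st [x, ones m, l, [], [], [], [], [], [], [], [], []])
        (4 * (ones m).length + 2)
        (st [x, ones m ++ ones m, l, [], [], [], [], [], [], [], [], []]) :=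
      Reach.app' (by simp) (by simp) (by simp) (by simp [st]; omega)
    rw [ones_add] at h1
    have e2 : m + m = m * 2 := by ring
    rw [e2] at h1
    cases b
    · exact ⟨_, Reach.each_false' (by simp) rfl h1 h2⟩
    · exact ⟨_, Reach.each_true' (by simp) rfl h1 h2⟩

end

/-- Decide the parity. -/
def parityProg : Prog :=
  .seq (.put 1 true) (.seq (.copy 0 2) (.seq dblAll (.seq parProg (.copy 6 0))))

theorem reach_parityProg (G : Oracle) (x : List Bool) : ∃ (t : ℕ) (τ : Store),
    Run G (2 ^ (2 * (x.length + 1))) parityProg (init x) t τ ∧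
      (par G (2 ^ x.length) [] = true ↔ τ 0 ≠ []) := by
  obtain ⟨s, hs⟩ : ∃ s, s = 2 ^ (2 * (x.length + 1)) := ⟨_, rfl⟩
  rw [← hs]
  have e0 : s = 4 * 2 ^ x.length * 2 ^ x.length := by rw [hs]; ring
  have g1 : x.length + 1 ≤ 2 ^ x.length := Nat.lt_two_pow_self
  have g2 : 4 * 2 ^ x.length ≤ s := by
    rw [e0]
    exact Nat.le_mul_of_pos_right _ (by positivity)
  have h1 : Reach G s (.put 1 true) (st [x, [], [], [], [], [], [], [], [], [], [], []]) 1
      (st [x, ones 1, [], [], [], [], [], [], [], [], [], []]) :=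
    Reach.put' true (by simp) (by simp [st]; omega)
  have h2 : Reach G s (.copy 0 2) (st [x, ones 1, [], [], [], [], [], [], [], [], [], []])
      (x.length + 1) (st [x, ones 1, x, [], [], [], [], [], [], [], [], []]) :=
    Reach.copy' (by simp) (by simp [st]; omega)
  obtain ⟨T, h3⟩ := reach_dblAll (G := G) (s := s) x x 1 (by omega)
  rw [Nat.one_mul] at h3
  have h4 := reach_parProg (G := G) (s := s) (x0 := x) (W := []) (2 ^ x.length) false
    (by simp; omega)
  have h5 : Reach G s (.copy 6 0) (st [x, ones (2 ^ x.length), [], [], [], [],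
      cc (xor false (par G (2 ^ x.length) [])), [], [], [], [], []])
      ((cc (xor false (par G (2 ^ x.length) []))).length + 1)
      (st [cc (xor false (par G (2 ^ x.length) [])), ones (2 ^ x.length), [], [], [], [],
        cc (xor false (par G (2 ^ x.length) [])), [], [], [], [], []]) := by
    refine Reach.copy' (by simp) ?_
    have : (cc (xor false (par G (2 ^ x.length) []))).length ≤ 1 := by
      cases (xor false (par G (2 ^ x.length) [])) <;> simp [cc]
    have g3 : 1 ≤ s := by omega
    exact le_trans this g3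
  obtain ⟨t, _, h6⟩ := h1.seq (h2.seq (h3.seq (h4.seq h5)))
  refine ⟨t, _, by rw [init_eq]; exact h6, ?_⟩
  cases par G (2 ^ x.length) [] <;> simp [st, cc]

end Pool.Agent.L0h32.ES
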