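import Pool.Agent.L0h32.ES.Circ

/-!
# The circuit
-/

set_option autoImplicit false

namespace Pool.Agent.L0h32.ES

open Pool.Agent.L0h34.OM Finset

/-- Terms. -/
abbrev Term (N T : ℕ) : Type := Fin T → Option (Fin (2 ^ N) × Bool)

/-- The assignment satisfies the term. -/
def Sat {N T : ℕ} (ρ : Term N T) (X : Fin (2 ^ N) → Bool) : Prop :=
  ∀ k i b, ρ k = some (i, b) → X i = b

section
variable {N L T J : ℕ} {B : Oracle} {u : Prog} {x0 : List Bool}

theorem cert {θ : D L → Bool} {X : Fin (2 ^ N) → Bool} (h : NAccepts (OO B θ X) u T x0) :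
    ∃ ρ : Term N T, Sat ρ X ∧ ∀ X', Sat ρ X' → NAccepts (OO B θ X') u T x0 := by
  classical
  obtain ⟨w, hw, s, t, τ, h1, h2, h3⟩ := h
  obtain ⟨Q, hQ, hloc⟩ := h1.local_card
  have hchoose : ∀ (q : List Bool) (i : Fin (2 ^ N)) (hex : ∃ i : Fin (2 ^ N), q = addr N [] i),
      q = addr N [] i → hex.choose = i := by
    intro q i hex hi
    have h6 := hex.choose_spec
    have h7 : addr N [] i = addr N [] hex.choose := by rw [← hi]; exact h6
    exact (Fin.ext (zs_inj i.2 hex.choose.2 (addr_inj h7).2.1)).symm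
  refine ⟨fun k => (Q.toList[(k : ℕ)]?).bind fun q =>
    if h : ∃ i : Fin (2 ^ N), q = addr N [] i then some (h.choose, X h.choose) else none, ?_, ?_⟩
  · intro k i b hk
    rw [Option.bind_eq_some_iff] at hk
    obtain ⟨q, _, hq⟩ := hk
    split_ifs at hq with h
    simp only [Option.some.injEq, Prod.mk.injEq] at hq
    rw [← hq.2, ← hq.1]
  · intro X' hX'
    refine ⟨w, hw, s, t, τ, hloc _ ?_, h2, h3⟩
    intro q hq
    have h5 : ∀ i : Fin (2 ^ N), q = addr N [] i → X' i = X i := by
      intro i hi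
      obtain ⟨k, hk, hkq⟩ := List.getElem_of_mem (Finset.mem_toList.2 hq)
      have hkT : k < T := by
        have := hk
        rw [Finset.length_toList] at this
        omega
      have hex : ∃ i : Fin (2 ^ N), q = addr N [] i := ⟨i, hi⟩
      have hi' : hex.choose = i := hchoose q i hex hi
      refine hX' ⟨k, hkT⟩ i (X i) ?_
      have h8 : Q.toList[k]? = some q := by rw [List.getElem?_eq_getElem hk, hkq]
      simp only [h8, Option.bind_some]
      rw [dif_pos hex, hi']
    unfold OO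
    apply O_congr
    · intro _ _ _; rfl
    · intro _ _
      unfold sp
      congr 1
      apply propext
      constructor
      · rintro ⟨i, hi, hb⟩
        exact ⟨i, hi, by rw [← h5 i hi]; exact hb⟩
      · rintro ⟨i, hi, hb⟩
        exact ⟨i, hi, by rw [h5 i hi]; exact hb⟩

end

/-- The nodes of the circuit. -/
abbrev Nd (N L T J : ℕ) : Type :=
  (Fin (2 ^ N) ⊕ Term N T) ⊕ ((Fin (J + 1) × (D L → Bool)) ⊕ (Fin J × (D L → Bool)))

instance (N L T J : ℕ) : Finite (Nd N L T J) := inferInstance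

theorem card_Nd {N L T J : ℕ} (hL : 1 ≤ L) :
    Nat.card (Nd N L T J) ≤ 2 ^ N + (2 * 2 ^ N + 1) ^ T + (2 * J + 1) * 2 ^ (L ^ 2) := by
  have h1 : Nat.card (D L → Bool) ≤ 2 ^ (L ^ 2) := by
    rw [Nat.card_fun]
    simp only [Nat.card_eq_fintype_card, Fintype.card_bool]
    exact Nat.pow_le_pow_right (by norm_num) (card_D hL)
  have h2 : Nat.card (Term N T) = (2 * 2 ^ N + 1) ^ T := by
    rw [Nat.card_fun]
    simp only [Nat.card_eq_fintype_card, Fintype.card_option, Fintype.card_prod, Fintype.card_fin,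
      Fintype.card_bool]
    ring
  unfold Nd
  rw [Nat.card_sum, Nat.card_sum, Nat.card_sum, Nat.card_prod, Nat.card_prod, h2]
  simp only [Nat.card_eq_fintype_card (α := Fin _), Fintype.card_fin]
  nlinarith [h1, Nat.zero_le J]

/-- The depth of a node. -/
def ndepth {N L T J : ℕ} : Nd N L T J → ℕ
  | .inl (.inl _) => 0
  | .inl (.inr _) => 1
  | .inr (.inl (r, _)) => 2 + 2 * r
  | .inr (.inr (r, _)) => 2 * r + 3

open Classical in
/-- The value at a node. -/
noncomputable def nval {N L T J : ℕ} (B : Oracle) (u : Prog) (x0 : List Bool) :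
    Nd N L T J → (Fin (2 ^ N) → Bool) → Bool
  | .inl (.inl i), X => X i
  | .inl (.inr ρ), X => decide (Sat ρ X)
  | .inr (.inl (r, θ)), X => decide (F N L T J B u x0 r θ X)
  | .inr (.inr (r, θ)), X => decide (∀ θ' : D L → Bool, Agr false (Rj N (J - (r + 1))) θ θ' →
      F N L T J B u x0 r θ' X)

open Classical in
theorem nrule {N L T J : ℕ} (B : Oracle) (u : Prog) (x0 : List Bool) (v : Nd N L T J) :
    v ∈ (∅ : Finset (Nd N L T J)) ∨ (∃ i, ∀ x, nval B u x0 v x = x i) ∨
    ∃ J' : Finset (Nd N L T J × Bool), (∀ u ∈ J', ndepth u.1 < ndepth v) ∧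
      ((J'.card ≤ 1 ∧ ∃ F : Finset (Nd N L T J × Bool) → Bool,
          ∀ x, nval B u x0 v x = F (J'.filter fun w => nval B u x0 w.1 x = w.2)) ∨
        (∀ x, nval B u x0 v x = decide (∀ w ∈ J', nval B u x0 w.1 x = w.2)) ∨
        (∀ x, nval B u x0 v x = decide (∃ w ∈ J', nval B u x0 w.1 x = w.2))) := by
  have : Fintype (Nd N L T J × Bool) := Fintype.ofFinite _
  right
  match v with
  | .inl (.inl i) => exact Or.inl ⟨i, fun x => rfl⟩
  | .inl (.inr ρ) =>
    right
    refine ⟨univ.filter fun w => ∃ k i b, ρ k = some (i, b) ∧ w = (.inl (.inl i), b), ?_, ?_⟩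
    · intro w hw
      rw [mem_filter] at hw
      obtain ⟨_, k, i, b, _, rfl⟩ := hw
      exact Nat.zero_lt_one
    · right; left
      intro X
      have e : nval B u x0 (.inl (.inr ρ) : Nd N L T J) X = decide (Sat ρ X) := rfl
      rw [e]
      apply decide_eq_decide.2
      constructor
      · intro h w hw
        rw [mem_filter] at hw
        obtain ⟨_, k, i, b, h1, rfl⟩ := hw
        exact h k i b h1
      · intro h k i b hk
        exact h (.inl (.inl i), b) (mem_filter.2 ⟨mem_univ _, k, i, b, hk, rfl⟩)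
  | .inr (.inl (⟨0, h0⟩, θ)) =>
    right
    by_cases h1 : ∃ X1 : Fin (2 ^ N) → Bool, parX X1 = true ∧ Con B true θ X1 (L + 1)
    · by_cases h2 : ∃ X0 : Fin (2 ^ N) → Bool, parX X0 = false ∧ Con B false θ X0 (L + 1)
      · refine ⟨univ.filter fun w => ∃ ρ : Term N T,
          (∀ X, Sat ρ X → NAccepts (OO B θ X) u T x0) ∧ w = (.inl (.inr ρ), true), ?_, ?_⟩
        · intro w hw
          rw [mem_filter] at hw
          obtain ⟨_, ρ, _, rfl⟩ := hw
          show 1 < 2 + 2 * 0
          norm_num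
        · right; right
          intro X
          have e : nval B u x0 (.inr (.inl (⟨0, h0⟩, θ)) : Nd N L T J) X =
              decide (F N L T J B u x0 0 θ X) := rfl
          rw [e]
          apply decide_eq_decide.2
          constructor
          · intro h
            obtain ⟨ρ, h3, h4⟩ := cert (h.2 h2)
            exact ⟨(.inl (.inr ρ), true), mem_filter.2 ⟨mem_univ _, ρ, h4, rfl⟩,
              decide_eq_true h3⟩
          · rintro ⟨w, hw, h3⟩
            rw [mem_filter] at hw
            obtain ⟨_, ρ, h4, rfl⟩ := hw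
            exact ⟨h1, fun _ => h4 X (of_decide_eq_true h3)⟩
      · refine ⟨∅, by simp, Or.inr (Or.inl fun X => ?_)⟩
        have e : nval B u x0 (.inr (.inl (⟨0, h0⟩, θ)) : Nd N L T J) X =
            decide (F N L T J B u x0 0 θ X) := rfl
        rw [e]
        apply decide_eq_decide.2
        exact ⟨fun _ => by simp, fun _ => ⟨h1, fun h => absurd h h2⟩⟩
    · refine ⟨∅, by simp, Or.inr (Or.inr fun X => ?_)⟩
      have e : nval B u x0 (.inr (.inl (⟨0, h0⟩, θ)) : Nd N L T J) X =
          decide (F N L T J B u x0 0 θ X) := rfl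
      rw [e]
      apply decide_eq_decide.2
      exact ⟨fun h => absurd h.1 h1, fun h => by simp at h⟩
  | .inr (.inl (⟨r + 1, h0⟩, θ)) =>
    right
    refine ⟨univ.filter fun w => ∃ θ' : D L → Bool, Agr true (Rj N (J - (r + 1))) θ θ' ∧
      w = (.inr (.inr (⟨r, by omega⟩, θ')), true), ?_, ?_⟩
    · intro w hw
      rw [mem_filter] at hw
      obtain ⟨_, θ', _, rfl⟩ := hw
      show 2 * r + 3 < 2 + 2 * (r + 1)
      omega
    · right; right
      intro X
      have e : nval B u x0 (.inr (.inl (⟨r + 1, h0⟩, θ)) : Nd N L T J) X =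
          decide (F N L T J B u x0 (r + 1) θ X) := rfl
      rw [e]
      apply decide_eq_decide.2
      constructor
      · rintro ⟨θ', h1, h2⟩
        exact ⟨(.inr (.inr (⟨r, by omega⟩, θ')), true), mem_filter.2 ⟨mem_univ _, θ', h1, rfl⟩,
          decide_eq_true h2⟩
      · rintro ⟨w, hw, h3⟩
        rw [mem_filter] at hw
        obtain ⟨_, θ', h1, rfl⟩ := hw
        exact ⟨θ', h1, of_decide_eq_true h3⟩
  | .inr (.inr (r, θ)) =>
    right
    refine ⟨univ.filter fun w => ∃ θ' : D L → Bool, Agr false (Rj N (J - (r + 1))) θ θ' ∧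
      w = (.inr (.inl (⟨r, by omega⟩, θ')), true), ?_, ?_⟩
    · intro w hw
      rw [mem_filter] at hw
      obtain ⟨_, θ', _, rfl⟩ := hw
      show 2 + 2 * (r : ℕ) < 2 * (r : ℕ) + 3
      omega
    · right; left
      intro X
      have e : nval B u x0 (.inr (.inr (r, θ)) : Nd N L T J) X =
          decide (∀ θ' : D L → Bool, Agr false (Rj N (J - (r + 1))) θ θ' →
            F N L T J B u x0 r θ' X) := rfl
      rw [e]
      apply decide_eq_decide.2
      constructor
      · intro h w hw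
        rw [mem_filter] at hw
        obtain ⟨_, θ', h1, rfl⟩ := hw
        exact decide_eq_true (h θ' h1)
      · intro h θ' h1
        exact of_decide_eq_true
          (h (.inr (.inl (⟨r, by omega⟩, θ')), true) (mem_filter.2 ⟨mem_univ _, θ', h1, rfl⟩))

/-- The circuit. -/
noncomputable def net {N L T J : ℕ} (B : Oracle) (u : Prog) (x0 : List Bool) :
    Pool.Agent.Y603.MS.Circuit 1 (2 ^ N) where
  Node := Nd N L T J
  val := nval B u x0
  depth := ndepth
  leak := ∅
  rule := nrule B u x0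

theorem fool_core {N L T J ℓ : ℕ} (B : Oracle) (u : Prog) (x0 : List Bool)
    (hL : L = x0.length + 2 * T) (hL1 : 1 ≤ L) (hR : L < Rj N J)
    (hsize : 2 ^ N + (2 * 2 ^ N + 1) ^ T + (2 * J + 1) * 2 ^ (L ^ 2) ≤ 2 ^ ℓ)
    (hnum : 2 * (2 ^ (2 * J + 2 + 9) * (1 * ℓ)) ^ (2 * J + 2) * ((2 * J + 2) * 1 + ℓ + 1) ≤
      2 ^ N) :
    ∃ XX : Bool → Fin (2 ^ N) → Bool, parX (XX false) = false ∧ parX (XX true) = true ∧
      ¬ (¬ NAccepts (W N B (gg N XX) false) u T x0 ∧ NAccepts (W N B (gg N XX) true) u T x0) := by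
  classical
  by_contra hcon
  push Not at hcon
  have H : ∀ XX : Bool → Fin (2 ^ N) → Bool, parX (XX false) = false → parX (XX true) = true →
      ¬ NAccepts (W N B (gg N XX) false) u T x0 ∧ NAccepts (W N B (gg N XX) true) u T x0 :=
    fun XX h1 h2 => hcon XX h1 h2
  have hind := main_ind hL hR H J le_rfl
  have hcon0 : ∀ (b : Bool) (θ : D L → Bool) (X : Fin (2 ^ N) → Bool),
      Con B b θ X (Rj N (J - J)) := by
    intro b θ X p _ h2 h3
    have h4 := qr_lt p.1
    have h5 : Rj N (J - J) = 2 * N + 1 := by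
      unfold Rj
      simp
    omega
  have hF : ∀ (θ : D L → Bool) (X : Fin (2 ^ N) → Bool),
      decide (F N L T J B u x0 J θ X) = parX X := by
    intro θ X
    cases hX : parX X
    · exact decide_eq_false ((hind θ X).2 hX (hcon0 _ _ _))
    · exact decide_eq_true ((hind θ X).1 hX (hcon0 _ _ _))
  have hℓ : 1 ≤ ℓ := by
    by_contra h
    have h0 : ℓ = 0 := by omega
    rw [h0] at hsize
    have h1 : 1 ≤ 2 ^ N := Nat.one_le_two_pow
    have h2 : 1 ≤ (2 * 2 ^ N + 1) ^ T := Nat.one_le_pow _ _ (by omega)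
    omega
  have hdep : ∀ v : (net (N := N) (L := L) (T := T) (J := J) B u x0).Node,
      (net (N := N) (L := L) (T := T) (J := J) B u x0).depth v ≤ 2 * J + 2 := by
    intro v
    show ndepth v ≤ 2 * J + 2
    match v with
    | .inl (.inl i) => exact Nat.zero_le _
    | .inl (.inr ρ) => show 1 ≤ 2 * J + 2; omega
    | .inr (.inl (r, θ)) => show 2 + 2 * (r : ℕ) ≤ 2 * J + 2; omega
    | .inr (.inr (r, θ)) => show 2 * (r : ℕ) + 3 ≤ 2 * J + 2; omega
  have hfin := Pool.Agent.Y220.CO.done 1 (2 ^ N) (net (N := N) (L := L) (T := T) (J := J) B u x0) ℓ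
    (2 * J + 2) 1 (2 ^ N) rfl hℓ le_rfl le_rfl ((card_Nd hL1).trans hsize) hdep hnum
    (.inr (.inl (⟨J, by omega⟩, fun _ => false)) : Nd N L T J) univ ?_
  · rw [card_univ, Fintype.card_fun, Fintype.card_bool, Fintype.card_fin] at hfin
    have : 0 < 2 ^ 2 ^ N := by positivity
    omega
  · intro X _
    rw [filter_true_of_mem]
    · rw [card_univ, Fintype.card_fin]
    · intro i _
      show decide (F N L T J B u x0 J (fun _ => false) (Function.update X i (!(X i)))) ≠
        decide (F N L T J B u x0 J (fun _ => false) X)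
      rw [hF, hF, parX_flip]
      cases parX X <;> simp

/-- Some pair of oracles fools the program `u`. -/
theorem fool_one {N L T J ℓ : ℕ} (B : Oracle) (u : Prog) (x0 : List Bool) (hN : 1 ≤ N)
    (hL : L = x0.length + 2 * T) (hL1 : 1 ≤ L) (hR : L < Rj N J)
    (hsize : 2 ^ N + (2 * 2 ^ N + 1) ^ T + (2 * J + 1) * 2 ^ (L ^ 2) ≤ 2 ^ ℓ)
    (hnum : 2 * (2 ^ (2 * J + 2 + 9) * (1 * ℓ)) ^ (2 * J + 2) * ((2 * J + 2) * 1 + ℓ + 1) ≤
      2 ^ N) :
    ∃ (g : Bool → Oracle) (κ : Bool),
      ¬ (par (W N B g κ) N [] = true ↔ NAccepts (W N B g κ) u T x0) := by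
  obtain ⟨XX, h0, h1, h2⟩ := fool_core B u x0 hL hL1 hR hsize hnum
  have hp : ∀ b, par (W N B (gg N XX) b) N [] = parX (XX b) := by
    intro b
    apply par_sp
    intro i
    have hlen : (addr N [] (i : ℕ)).length = 2 * N + 1 := by rw [length_addr]; simp
    have hhead : (addr N [] (i : ℕ)).head? = some true := by
      unfold addr
      obtain ⟨m, rfl⟩ : ∃ m, N = m + 1 := ⟨N - 1, by omega⟩
      simp [List.replicate_succ]
    unfold W
    rw [O_special hlen hhead]
    exact sp_addr _ _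
  by_cases h3 : NAccepts (W N B (gg N XX) false) u T x0
  · refine ⟨gg N XX, false, ?_⟩
    rw [hp, h0]
    simp [h3]
  · have h4 : ¬ NAccepts (W N B (gg N XX) true) u T x0 := fun h => h2 ⟨h3, h⟩
    refine ⟨gg N XX, true, ?_⟩
    rw [hp, h1]
    simp [h4]

end Pool.Agent.L0h32.ES
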