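import Pool.Agent.L0h32.ES.Fool

/-!
# The construction of the oracle by stages
-/

set_option autoImplicit false

namespace Pool.Agent.L0h32.ES

open Pool.Agent.L0h34.OM Finset

/-- A stage of the construction. -/
structure Stg where
  n : ℕ
  B : Oracle
  g : Bool → Oracle
  κ : Bool

/-- The oracle of a stage. -/
noncomputable def Stg.cur (s : Stg) : Oracle := W (2 ^ s.n) s.B s.g s.κ

/-- The length of the special strings of a stage. -/
def Stg.ell (s : Stg) : ℕ := 2 * 2 ^ s.n + 1

/-- The next stage: the program `u` is fooled. -/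
noncomputable def Stg.next (s : Stg) (u : Prog) : Stg where
  n := s.n + 2 * tm s.n + 20
  B := s.cur
  g := (fool (n := s.n + 2 * tm s.n + 20) (by omega) s.cur u).choose
  κ := (fool (n := s.n + 2 * tm s.n + 20) (by omega) s.cur u).choose_spec.choose

theorem Stg.next_spec (s : Stg) (u : Prog) :
    ¬ (par (s.next u).cur (2 ^ (s.next u).n) [] = true ↔
      NAccepts (s.next u).cur u (tm (s.next u).n) (List.replicate (s.next u).n true)) :=
  (fool (n := s.n + 2 * tm s.n + 20) (by omega) s.cur u).choose_spec.choose_spec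

/-- The stages. -/
noncomputable def stg : ℕ → Stg
  | 0 => ⟨0, fun _ => false, fun _ _ => false, false⟩
  | i + 1 => (stg i).next (pr i)

theorem n_succ (i : ℕ) : (stg (i + 1)).n = (stg i).n + 2 * tm (stg i).n + 20 := rfl

theorem le_n (i : ℕ) : i ≤ (stg i).n := by
  induction i with
  | zero => exact Nat.zero_le _
  | succ i ih => rw [n_succ]; omega

theorem n_lt (i : ℕ) : (stg i).n < (stg (i + 1)).n := by rw [n_succ]; omega

theorem ell_lt (i : ℕ) : (stg i).ell < (stg (i + 1)).ell := by
  unfold Stg.ell
  have := Nat.pow_lt_pow_right (a := 2) (by norm_num) (n_lt i)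
  omega

theorem ell_mono {i j : ℕ} (h : i ≤ j) : (stg i).ell ≤ (stg j).ell :=
  monotone_nat_of_le_succ (fun i => (ell_lt i).le) h

theorem n_lt_ell (i : ℕ) : (stg i).n < (stg i).ell := by
  unfold Stg.ell
  have : (stg i).n < 2 ^ (stg i).n := Nat.lt_two_pow_self
  omega

theorem lt_ell (i : ℕ) : i < (stg i).ell := (le_n i).trans_lt (n_lt_ell i)

theorem long (i : ℕ) : (stg i).n + 2 * tm (stg i).n < (stg (i + 1)).ell := by
  have h1 := n_lt_ell (i + 1)
  rw [n_succ] at h1
  omega

theorem cur_succ {i : ℕ} {z : List Bool} (h : z.length < (stg (i + 1)).ell) :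
    (stg (i + 1)).cur z = (stg i).cur z := by
  unfold Stg.cur W
  exact O_short h

theorem cur_eq {i j : ℕ} (hij : i ≤ j) {z : List Bool} (h : z.length < (stg (i + 1)).ell) :
    (stg j).cur z = (stg i).cur z := by
  induction j, hij using Nat.le_induction with
  | base => rfl
  | succ j hij ih =>
    rw [cur_succ (lt_of_lt_of_le h (ell_mono (by omega))), ih]

/-- The oracle. -/
noncomputable def OA : Oracle := fun z => (stg z.length).cur z

theorem OA_eq {i : ℕ} {z : List Bool} (h : z.length < (stg (i + 1)).ell) :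
    OA z = (stg i).cur z := by
  unfold OA
  rcases le_total i z.length with h1 | h1
  · exact cur_eq h1 h
  · refine (cur_eq h1 ?_).symm
    have := lt_ell (z.length + 1)
    omega

theorem cur_code {i j : ℕ} (hij : i ≤ j) {p : Qn} (h : qr p < (stg (i + 1)).ell) :
    (stg j).cur (qc p) = (stg i).cur (qc p) := by
  induction j, hij using Nat.le_induction with
  | base => rfl
  | succ j hij ih =>
    rw [← ih]
    have h1 : qr p < (stg (j + 1)).ell := lt_of_lt_of_le h (ell_mono (by omega))
    unfold Stg.cur W
    exact O_code_low p h1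

theorem OA_code {i : ℕ} {p : Qn} (h1 : (stg i).ell ≤ qr p) (h2 : qr p < (stg (i + 1)).ell)
    (hκ : p.2.1 = (stg i).κ) : OA (qc p) = acc OA p.1 p.2.2 := by
  have h3 : OA (qc p) = (stg i).cur (qc p) := by
    apply cur_code _ h2
    have := lt_ell i
    have := qr_lt p
    omega
  rw [h3]
  have h4 : (stg i).cur (qc p) = tru (2 ^ (stg i).n) (stg i).B (stg i).g p := by
    unfold Stg.cur W
    exact O_code p h1
  rw [h4, tru_eq, hκ]
  apply acc_congr
  intro q hq
  exact (OA_eq (lt_of_le_of_lt hq h2)).symm

/-- The stage of a number. -/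
noncomputable def stage (r : ℕ) : ℕ := Nat.findGreatest (fun i => (stg i).ell ≤ r) r

theorem stage_spec {r : ℕ} (hr : 3 ≤ r) : (stg (stage r)).ell ≤ r ∧ r < (stg (stage r + 1)).ell := by
  constructor
  · exact Nat.findGreatest_spec (P := fun i => (stg i).ell ≤ r) (m := 0) (Nat.zero_le _) (by
      show 2 * 2 ^ 0 + 1 ≤ r
      omega)
  · by_contra h
    push Not at h
    have h1 : stage r + 1 ≤ r := by
      have := lt_ell (stage r + 1)
      omega
    have h2 := Nat.le_findGreatest (P := fun i => (stg i).ell ≤ r) h1 h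
    unfold stage at h2
    omega

theorem OA_advice (k : ℕ) (x : List Bool) :
    OA (cd k (stg (stage (rch k x.length))).κ x) = acc OA k x := by
  have h0 := four_le_rch k x.length
  have h := stage_spec (r := rch k x.length) (by omega)
  exact OA_code (p := (k, (stg (stage (rch k x.length))).κ, x)) h.1 h.2 rfl

theorem OA_fool (u : Prog) (n0 : ℕ) : ∃ n, n0 ≤ n ∧
    ¬ (par OA (2 ^ n) [] = true ↔ NAccepts OA u (tm n) (List.replicate n true)) := by
  obtain ⟨i, hi, hu⟩ := pr_spec u n0
  refine ⟨(stg (i + 1)).n, ?_, ?_⟩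
  · have := le_n (i + 1)
    omega
  · have h1 := (stg i).next_spec (pr i)
    have h2 : (stg i).next (pr i) = stg (i + 1) := rfl
    rw [h2, hu] at h1
    have h3 : par OA (2 ^ (stg (i + 1)).n) [] = par (stg (i + 1)).cur (2 ^ (stg (i + 1)).n) [] := by
      refine parUpto_congr fun j _ => ?_
      apply OA_eq
      rw [length_addr]
      have := ell_lt (i + 1)
      unfold Stg.ell at this ⊢
      simpa using this
    have h4 : NAccepts OA u (tm (stg (i + 1)).n) (List.replicate (stg (i + 1)).n true) ↔
        NAccepts (stg (i + 1)).cur u (tm (stg (i + 1)).n) (List.replicate (stg (i + 1)).n true) := by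
      have h5 : ∀ z : List Bool, z.length ≤ (List.replicate (stg (i + 1)).n true).length +
          2 * tm (stg (i + 1)).n → OA z = (stg (i + 1)).cur z := by
        intro z hz
        apply OA_eq
        have := long (i + 1)
        rw [List.length_replicate] at hz
        omega
      exact ⟨NAccepts_congr fun z hz => h5 z hz, NAccepts_congr fun z hz => (h5 z hz).symm⟩
    rw [h3, h4]
    exact h1

end Pool.Agent.L0h32.ES
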