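import Pool.Agent.L0h32.ES.Defs
import Pool.Agent.L0h34.OM.Count

/-!
# Codes and pairs of oracles that contain the truth about each other
-/

set_option autoImplicit false

namespace Pool.Agent.L0h32.ES

open Pool.Agent.L0h34.OM

theorem exists_pr : ∃ pr : ℕ → Prog, ∀ (u : Prog) (c : ℕ), ∃ k, c ≤ k ∧ pr k = u := by
  haveI : Nonempty (Prog × ℕ) := ⟨(.nop, 0)⟩
  obtain ⟨e, he⟩ := exists_surjective_nat (Prog × ℕ)
  refine ⟨fun k => (e k).1, fun u c => ?_⟩
  by_contra hcon
  push Not at hcon
  -- all the indices of the pairs with first component `u` are below `c`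
  choose k hk using fun m : ℕ => he (u, m)
  have h1 : ∀ m, k m < c := by
    intro m
    by_contra h
    exact hcon (k m) (by omega) (by rw [hk])
  have h2 : Function.Injective (fun m => (⟨k m, h1 m⟩ : Fin c)) := by
    intro m m' h
    have h3 : k m = k m' := by simpa using h
    have h4 := hk m
    rw [h3, hk m'] at h4
    simpa using h4.symm
  exact not_injective_infinite_finite _ h2

/-- A numbering of the programs in which every program appears infinitely often. -/
noncomputable def pr : ℕ → Prog := exists_pr.choose

theorem pr_spec (u : Prog) (c : ℕ) : ∃ k, c ≤ k ∧ pr k = u := exists_pr.choose_spec u c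

/-- The space of the program number `k` on inputs of length `m`. -/
def rch (k m : ℕ) : ℕ := 2 ^ ((k + 1) * (m + 1) + 1)

theorem four_le_rch (k m : ℕ) : 4 ≤ rch k m := by
  have h : 2 ≤ (k + 1) * (m + 1) + 1 := by nlinarith [Nat.zero_le k, Nat.zero_le m, Nat.zero_le (k * m)]
  calc 4 = 2 ^ 2 := by norm_num
    _ ≤ _ := Nat.pow_le_pow_right (by norm_num) h

/-- The code of the side `b` of the question whether the program number `k` accepts `x`. -/
def cd (k : ℕ) (b : Bool) (x : List Bool) : List Bool :=
  false :: (List.replicate k true ++ false :: b :: (x ++ true ::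
    List.replicate (rch k x.length ^ 2) false))

theorem length_cd (k : ℕ) (b : Bool) (x : List Bool) :
    (cd k b x).length = k + x.length + 4 + rch k x.length ^ 2 := by
  simp [cd]; omega

theorem rch_sq_lt (k : ℕ) (b : Bool) (x : List Bool) :
    rch k x.length ^ 2 < (cd k b x).length := by rw [length_cd]; omega

theorem rch_lt (k : ℕ) (b : Bool) (x : List Bool) : rch k x.length < (cd k b x).length := by
  have h1 := rch_sq_lt k b x
  have h2 := four_le_rch k x.length
  nlinarith

theorem append_rep_inj {x x' : List Bool} {p p' : ℕ}
    (h : x ++ true :: List.replicate p false = x' ++ true :: List.replicate p' false) : x = x' := by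
  have h1 := congrArg List.reverse h
  simp only [List.reverse_append, List.reverse_cons, List.reverse_replicate, List.append_assoc,
    List.singleton_append] at h1
  have key : ∀ (p p' : ℕ) (l l' : List Bool),
      List.replicate p false ++ true :: l = List.replicate p' false ++ true :: l' → l = l' := by
    intro p
    induction p with
    | zero =>
      intro p' l l' h
      cases p' with
      | zero => simpa using h
      | succ p' => simp [List.replicate_succ] at h
    | succ p ih =>
      intro p' l l' h
      cases p' with
      | zero => simp [List.replicate_succ] at h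
      | succ p' =>
        simp only [List.replicate_succ, List.cons_append, List.cons.injEq, true_and] at h
        exact ih p' l l' h
  exact List.reverse_injective (key _ _ _ _ h1)

theorem cd_inj {k k' : ℕ} {b b' : Bool} {x x' : List Bool} (h : cd k b x = cd k' b' x') :
    k = k' ∧ b = b' ∧ x = x' := by
  simp only [cd, List.cons.injEq, true_and] at h
  obtain ⟨h1, h2⟩ := replicate_append_inj h
  simp only [List.cons.injEq] at h2
  exact ⟨h1, h2.1, append_rep_inj h2.2⟩

/-- The questions. -/
abbrev Qn : Type := ℕ × Bool × List Bool

/-- The code of a question. -/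
def qc (p : Qn) : List Bool := cd p.1 p.2.1 p.2.2

theorem qc_inj : Function.Injective qc := by
  rintro ⟨k, b, x⟩ ⟨k', b', x'⟩ h
  obtain ⟨h1, h2, h3⟩ := cd_inj h
  exact Prod.ext h1 (Prod.ext h2 h3)

/-- The space of a question. -/
def qr (p : Qn) : ℕ := rch p.1 p.2.2.length

theorem qr_sq_lt (p : Qn) : qr p ^ 2 < (qc p).length := rch_sq_lt _ _ _

theorem qr_lt (p : Qn) : qr p < (qc p).length := rch_lt _ _ _

open Classical in
/-- The program number `k` accepts `x`. -/
noncomputable def acc (A : Oracle) (k : ℕ) (x : List Bool) : Bool :=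
  decide (∃ (t : ℕ) (τ : Store), Run A (rch k x.length) (pr k) (init x) t τ ∧ τ 0 ≠ [])

theorem acc_congr {A A' : Oracle} {k : ℕ} {x : List Bool}
    (h : ∀ q : List Bool, q.length ≤ rch k x.length → A q = A' q) : acc A k x = acc A' k x := by
  unfold acc
  congr 1
  apply propext
  constructor
  · rintro ⟨t, τ, h1, h2⟩
    exact ⟨t, τ, h1.local_length fun q hq => (h q hq).symm, h2⟩
  · rintro ⟨t, τ, h1, h2⟩
    exact ⟨t, τ, h1.local_length fun q hq => h q hq, h2⟩

open Classical in
/-- The oracle with the base `B`, the answers `θ` to the questions, and the values `g` on the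
special strings (of length `2 N + 1`, beginning with `true`). -/
noncomputable def O (N : ℕ) (B : Oracle) (θ : Qn → Bool) (g : Oracle) : Oracle := fun z =>
  if z.length < 2 * N + 1 then B z
  else if z.length = 2 * N + 1 ∧ z.head? = some true then g z
  else if h : ∃ p : Qn, z = qc p then (if qr h.choose < 2 * N + 1 then B z else θ h.choose)
  else false

section
variable {N : ℕ} {B : Oracle} {θ θ' : Qn → Bool} {g g' : Oracle}

theorem O_short {z : List Bool} (h : z.length < 2 * N + 1) : O N B θ g z = B z := by
  unfold O
  rw [if_pos h]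

theorem O_special {z : List Bool} (h : z.length = 2 * N + 1) (h' : z.head? = some true) :
    O N B θ g z = g z := by
  unfold O
  rw [if_neg (by omega), if_pos ⟨h, h'⟩]

theorem head_qc (p : Qn) : (qc p).head? = some false := rfl

theorem O_code (p : Qn) (h : 2 * N + 1 ≤ qr p) : O N B θ g (qc p) = θ p := by
  have h1 := qr_lt p
  unfold O
  rw [if_neg (by omega), if_neg (by rw [head_qc]; simp)]
  have h2 : ∃ p' : Qn, qc p = qc p' := ⟨p, rfl⟩
  rw [dif_pos h2]
  have h3 : h2.choose = p := qc_inj h2.choose_spec.symm
  rw [h3, if_neg (by omega)]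

theorem O_code_low (p : Qn) (h : qr p < 2 * N + 1) : O N B θ g (qc p) = B (qc p) := by
  by_cases h0 : (qc p).length < 2 * N + 1
  · exact O_short h0
  unfold O
  rw [if_neg h0, if_neg (by rw [head_qc]; simp)]
  have h2 : ∃ p' : Qn, qc p = qc p' := ⟨p, rfl⟩
  rw [dif_pos h2]
  have h3 : h2.choose = p := qc_inj h2.choose_spec.symm
  rw [h3, if_pos h]

/-- The value at a string depends on the answer to one question only. -/
theorem O_congr {z : List Bool} (hθ : ∀ p, z = qc p → 2 * N + 1 ≤ qr p → θ p = θ' p)
    (hg : z.length = 2 * N + 1 → z.head? = some true → g z = g' z) :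
    O N B θ g z = O N B θ' g' z := by
  unfold O
  split_ifs with h1 h2 h3 h4
  · rfl
  · exact hg h2.1 h2.2
  · rfl
  · exact hθ _ h3.choose_spec (by omega)
  · rfl

end

/-- One step towards the truth. -/
noncomputable def stepW (N : ℕ) (B : Oracle) (g : Bool → Oracle) (θ : Qn → Bool) : Qn → Bool :=
  fun p => acc (O N B θ (g p.2.1)) p.1 p.2.2

/-- The truth. -/
noncomputable def tru (N : ℕ) (B : Oracle) (g : Bool → Oracle) : Qn → Bool :=
  fun p => (stepW N B g)^[(qc p).length + 1] (fun _ => false) p

/-- The pair of oracles. -/
noncomputable def W (N : ℕ) (B : Oracle) (g : Bool → Oracle) (b : Bool) : Oracle :=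
  O N B (tru N B g) (g b)

section
variable {N : ℕ} {B : Oracle} {g : Bool → Oracle}

theorem stepW_congr {θ θ' : Qn → Bool} {p : Qn}
    (h : ∀ p' : Qn, (qc p').length < (qc p).length → θ p' = θ' p') :
    stepW N B g θ p = stepW N B g θ' p := by
  apply acc_congr
  intro q hq
  apply O_congr
  · intro p' hp' _
    apply h
    rw [← hp']
    exact lt_of_le_of_lt hq (qr_lt p)
  · intro _ _
    rfl

theorem iter_congr (n : ℕ) : ∀ (m : ℕ) (X Y : Qn → Bool) (p : Qn), (qc p).length < n →
    (qc p).length < m → (stepW N B g)^[n] X p = (stepW N B g)^[m] Y p := by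
  induction n with
  | zero => intro m X Y p h; omega
  | succ n ih =>
    intro m X Y p h1 h2
    cases m with
    | zero => omega
    | succ m =>
      rw [Function.iterate_succ_apply', Function.iterate_succ_apply']
      apply stepW_congr
      intro p' hp'
      exact ih m X Y p' (by omega) (by omega)

theorem tru_eq (p : Qn) : tru N B g p = acc (W N B g p.2.1) p.1 p.2.2 := by
  have h1 : tru N B g p = stepW N B g ((stepW N B g)^[(qc p).length] (fun _ => false)) p := by
    unfold tru
    rw [Function.iterate_succ_apply']
  have h2 : stepW N B g ((stepW N B g)^[(qc p).length] (fun _ => false)) p =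
      stepW N B g (tru N B g) p := by
    apply stepW_congr
    intro p' hp'
    exact iter_congr _ _ _ _ _ (by omega) (by omega)
  rw [h1, h2]
  rfl

end

end Pool.Agent.L0h32.ES
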